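import Pool.Agent.U854.CQ.Stm
import Pool.Agent.W282.ZP.LV

/-!
# The truncated modular equation
-/

set_option autoImplicit false

open UpperHalfPlane Function Polynomial H294ZP Asymptotics Filter Pool.Agent.W282.ZP
open scoped Topology

namespace Pool.Agent.U854.CQ

/-- The coefficient functions of the modular equation. -/
theorem coeff_fun (N : ℕ) (hN : 0 < N) : ∃ (ι : Type) (_ : Fintype ι) (_ : DecidableEq ι)
    (α δ : ι → ℕ) (β : ι → ℤ) (h : ι → ℍ → ℍ) (P : ℕ → ℂ[X]),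
    (∀ k, 0 < α k ∧ 0 < δ k ∧ α k * δ k = N) ∧
    (∀ k τ, (h k τ : ℂ) * δ k = α k * τ + β k) ∧
    (∀ m k, IsIntegral ℤ ((P m).coeff k)) ∧ P 0 = 1 ∧
    (∀ m ≤ Fintype.card ι, ∀ τ,
      ∑ S ∈ Finset.powersetCard m (Finset.univ : Finset ι), ∏ k ∈ S, -jj (h k τ) =
        (P m).eval (jj τ)) ∧
    (∀ (τ w : ℍ) (a b c d : ℤ), a * d - b * c = N → (w : ℂ) * (c * τ + d) = a * τ + b →
      ∑ m ∈ Finset.range (Fintype.card ι + 1), (P m).eval (jj τ) *
        jj w ^ (Fintype.card ι - m) = 0) := by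
  classical
  have hC : TC := tc
  have hA : TA := ⟨ta1.1, ta1.2, ta2⟩
  have hB : TB := TBproof.tb hA hC
  obtain ⟨ι, _, _, α, δ, β, h, h1, h2, h3, h4⟩ := TF676.tf ta1.1 N hN
  set D := Fintype.card ι with hD
  set ζ : ι → ℂ := fun k => Complex.exp (- (2 * Real.pi * Complex.I * β k / δ k)) with hζ
  have hG : ∀ k, Lau N (α k ^ 2) (-ζ k) (fun τ => -jj (h k τ)) := by
    intro k
    obtain ⟨ha, hd, had⟩ := h1 k
    have h5 := (hC.2.2.2.2 hA.2.1 hA.2.2 (α k) (δ k) (β k) ha hd (h k) (h2 k)).1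
    rw [had] at h5
    have h6 := hC.2.2.2.1 N 0 (α k ^ 2) (-1) (ζ k) _ _ hN (hC.1 N (-1) hN isIntegral_one.neg) h5
    simpa using h6
  have hGH : ∀ k, Hol (fun τ => -jj (h k τ)) := by
    intro k
    obtain ⟨ha, hd, had⟩ := h1 k
    have h5 := (hC.2.2.2.2 hA.2.1 hA.2.2 (α k) (δ k) (β k) ha hd (h k) (h2 k)).2
    have h6 := TDaux.Hol.mul (TDaux.Hol.const (-1)) h5
    simpa using h6
  let F : Finset ι → ℍ → ℂ := fun S τ => ∏ k ∈ S, -jj (h k τ)
  let es : Finset ι → ℕ := fun S => ∑ k ∈ S, α k ^ 2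
  let As : Finset ι → ℂ := fun S => ∏ k ∈ S, -ζ k
  have hF : ∀ S, Lau N (es S) (As S) (F S) := fun S => lau_prod hC hN _ _ _ hG S
  have hFH : ∀ S, Hol (F S) := by
    intro S
    induction S using Finset.induction_on with
    | empty => simpa [F] using TDaux.Hol.const 1
    | insert a s ha ih =>
      have := TDaux.Hol.mul (hGH a) ih
      simpa only [F, Finset.prod_insert ha] using this
  let E : ℕ → ℕ := fun m => (Finset.powersetCard m (Finset.univ : Finset ι)).sup es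
  have hEle : ∀ m, ∀ S ∈ Finset.powersetCard m (Finset.univ : Finset ι), es S ≤ E m :=
    fun m S hS => Finset.le_sup hS
  let R : ℕ → ℍ → ℂ := fun m τ => ∑ S ∈ Finset.powersetCard m (Finset.univ : Finset ι), F S τ
  have hRL : ∀ m, Lau N (E m) (∑ S ∈ Finset.powersetCard m (Finset.univ : Finset ι),
      if es S = E m then As S else 0) (R m) := fun m => lau_sum hC hN F es As hF (E m) _ (hEle m)
  have hRH : ∀ m, Hol (R m) := by
    intro m
    have key : ∀ s : Finset (Finset ι), Hol (fun τ => ∑ S ∈ s, F S τ) := by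
      intro s
      induction s using Finset.induction_on with
      | empty => simpa using TDaux.Hol.const 0
      | insert a s ha ih =>
        have := TDaux.Hol.add (hFH a) ih
        simpa only [Finset.sum_insert ha] using this
    exact key _
  have hprod : ∀ τ : ℍ, ∀ y : ℂ, ∏ k, (y - jj (h k τ)) =
      ∑ m ∈ Finset.range (D + 1), R m τ * y ^ (D - m) := by
    intro τ y
    have e1 : ∏ k, (y - jj (h k τ)) = ∏ k, (-jj (h k τ) + y) :=
      Finset.prod_congr rfl fun k _ => by ring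
    rw [e1, Finset.prod_add, Finset.sum_powerset]
    rw [Finset.card_univ, ← hD]
    refine Finset.sum_congr rfl fun m hm => ?_
    rw [Finset.sum_mul]
    refine Finset.sum_congr rfl fun S hS => ?_
    rw [Finset.prod_const, Finset.card_sdiff_of_subset (Finset.subset_univ S), Finset.card_univ,
      (Finset.mem_powersetCard.1 hS).2]
  have hprodX : ∀ τ : ℍ, ∏ k, (X - C (jj (h k τ))) =
      ∑ m ∈ Finset.range (D + 1), C (R m τ) * X ^ (D - m) := by
    intro τ
    apply Polynomial.funext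
    intro y
    rw [eval_prod, eval_finsetSum]
    simp only [eval_sub, eval_X, eval_C, eval_mul, eval_pow]
    exact hprod τ y
  have hRcoeff : ∀ τ : ℍ, ∀ m ≤ D, R m τ = (∏ k, (X - C (jj (h k τ)))).coeff (D - m) := by
    intro τ m hm
    rw [hprodX, finsetSum_coeff, Finset.sum_eq_single m]
    · rw [coeff_C_mul, coeff_X_pow, if_pos rfl, mul_one]
    · intro m' hm' hne
      rw [coeff_C_mul, coeff_X_pow, if_neg, mul_zero]
      have := Finset.mem_range.1 hm'
      omega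
    · intro hm'
      exact absurd (Finset.mem_range.2 (by omega)) hm'
  have hRI : ∀ m ≤ D, Inv (R m) := by
    intro m hm p q r s hps τ w hw
    obtain ⟨σ, hσ⟩ := h3 p q r s hps τ w hw
    rw [hRcoeff w m hm, hRcoeff τ m hm]
    have e2 : (∏ k, (X - C (jj (h k w)))) = ∏ k, (X - C (jj (h k τ))) := by
      rw [← Equiv.prod_comp σ (fun k => (X - C (jj (h k τ))))]
      exact Finset.prod_congr rfl fun k _ => by rw [hσ k]
    rw [e2]
  have hP : ∀ m : ℕ, ∃ P : ℂ[X], (∀ k, IsIntegral ℤ (P.coeff k)) ∧ (m = 0 → P = 1) ∧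
      (m ≤ D → (∀ τ, R m τ = P.eval (jj τ))) := by
    intro m
    by_cases hm0 : m = 0
    · refine ⟨1, fun k => ?_, fun _ => rfl, fun _ τ => ?_⟩
      · rw [coeff_one]
        split_ifs
        · exact isIntegral_one
        · exact isIntegral_zero
      · simp [R, F, hm0]
    · by_cases hm : m ≤ D
      · obtain ⟨P, p1, p2, p3, p4, p5⟩ := hB N hN (E m) _ (R m) (hRI m hm) (hRH m) (hRL m)
        exact ⟨P, p1, fun h => absurd h hm0, fun _ => p2⟩
      · exact ⟨0, fun k => by simpa using isIntegral_zero, fun h => absurd h hm0,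
          fun h => absurd h hm⟩
  choose P hPint hP0 hP' using hP
  refine ⟨ι, inferInstance, inferInstance, α, δ, β, h, P, h1, h2, hPint, hP0 0 rfl,
    fun m hm τ => hP' m hm τ, ?_⟩
  intro τ w a b c d hdet hw
  obtain ⟨k, hk⟩ := h4 a b c d hdet τ w hw
  have e1 : ∀ m ∈ Finset.range (D + 1), (P m).eval (jj τ) * jj w ^ (D - m) =
      R m τ * jj w ^ (D - m) := by
    intro m hm
    rw [hP' m (Nat.lt_succ_iff.1 (Finset.mem_range.1 hm)) τ]
  rw [Finset.sum_congr rfl e1, ← hprod τ (jj w)]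
  exact Finset.prod_eq_zero (Finset.mem_univ k) (by rw [hk, sub_self])

/-- polynomials with integral coefficients -/
def IntP : Subring ℂ[X] where
  carrier := {p | ∀ k, IsIntegral ℤ (p.coeff k)}
  mul_mem' := by
    intro p q hp hq k
    rw [coeff_mul]
    exact IsIntegral.sum _ fun x _ => (hp _).mul (hq _)
  one_mem' := by
    intro k
    rw [coeff_one]
    split_ifs
    · exact isIntegral_one
    · exact isIntegral_zero
  add_mem' := by
    intro p q hp hq k
    rw [coeff_add]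
    exact (hp k).add (hq k)
  zero_mem' := by
    intro k
    rw [coeff_zero]
    exact isIntegral_zero
  neg_mem' := by
    intro p hp k
    rw [coeff_neg]
    exact (hp k).neg

theorem C_mem {z : ℂ} (h : IsIntegral ℤ z) : C z ∈ IntP := by
  intro k
  rw [coeff_C]
  split_ifs
  · exact h
  · exact isIntegral_zero

theorem X_mem : (X : ℂ[X]) ∈ IntP := by
  intro k
  rw [coeff_X]
  split_ifs
  · exact isIntegral_one
  · exact isIntegral_zero

/-- a polynomial small along a sequence is divisible by a power of `X` -/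
theorem dvd_of_isBigO (s : ℝ → ℂ) (hs0 : ∀ t, s t ≠ 0) (hs : Tendsto s atTop (𝓝 0))
    (W : ℂ[X]) (L : ℕ) (h : (fun t => W.eval (s t)) =O[atTop] (fun t => s t ^ L)) :
    X ^ L ∣ W := by
  induction L with
  | zero => simp
  | succ L ih =>
    have h1 : (fun t => s t ^ (L + 1)) =O[atTop] (fun t => s t ^ L) := by
      have h2 : s =O[atTop] (fun _ => (1 : ℂ)) := hs.isBigO_one ℂ
      have h3 := (isBigO_refl (fun t => s t ^ L) atTop).mul h2
      simpa [pow_succ] using h3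
    obtain ⟨V, hV⟩ := ih (h.trans h1)
    have h4 : (fun t => V.eval (s t)) =O[atTop] s := by
      have h5 : (fun t => (s t ^ L)⁻¹ * W.eval (s t)) =O[atTop]
          (fun t => (s t ^ L)⁻¹ * s t ^ (L + 1)) := (isBigO_refl _ _).mul h
      refine h5.congr_left (fun t => ?_) |>.congr_right (fun t => ?_)
      · rw [hV, eval_mul, eval_pow, eval_X, ← mul_assoc,
          inv_mul_cancel₀ (pow_ne_zero _ (hs0 t)), one_mul]
      · rw [pow_succ, ← mul_assoc, inv_mul_cancel₀ (pow_ne_zero _ (hs0 t)), one_mul]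
    have h6 : Tendsto (fun t => V.eval (s t)) atTop (𝓝 0) := h4.trans_tendsto hs
    have h7 : Tendsto (fun t => V.eval (s t)) atTop (𝓝 (V.eval 0)) :=
      (V.continuous.tendsto 0).comp hs
    have h8 : V.eval 0 = 0 := tendsto_nhds_unique h7 h6
    obtain ⟨U, hU⟩ := (Polynomial.X_dvd_iff (f := V)).2 (by rw [coeff_zero_eq_eval_zero]; exact h8)
    exact ⟨U, by rw [hV, hU, pow_succ, mul_assoc]⟩

/-- congruence up to terms of order `L` of bounded functions -/
def Ap (L : ℕ) (s : ℝ → ℂ) (f g : ℝ → ℂ) : Prop :=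
  (fun t => f t - g t) =O[atTop] (fun t => s t ^ L) ∧ f =O[atTop] (fun _ => (1 : ℂ)) ∧
    g =O[atTop] (fun _ => (1 : ℂ))

theorem Ap.refl {L : ℕ} {s : ℝ → ℂ} {f : ℝ → ℂ} (h : f =O[atTop] (fun _ => (1 : ℂ))) :
    Ap L s f f := ⟨by simpa using isBigO_zero _ _, h, h⟩

theorem Ap.mul {L : ℕ} {s : ℝ → ℂ} {f g f' g' : ℝ → ℂ} (h : Ap L s f g) (h' : Ap L s f' g') :
    Ap L s (fun t => f t * f' t) (fun t => g t * g' t) := by
  refine ⟨?_, ?_, ?_⟩
  · have e1 : (fun t => (f t - g t) * f' t) =O[atTop] (fun t => s t ^ L) := by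
      simpa using h.1.mul h'.2.1
    have e2 : (fun t => g t * (f' t - g' t)) =O[atTop] (fun t => s t ^ L) := by
      simpa using h.2.2.mul h'.1
    refine (e1.add e2).congr_left fun t => ?_
    ring
  · simpa using h.2.1.mul h'.2.1
  · simpa using h.2.2.mul h'.2.2

theorem Ap.add {L : ℕ} {s : ℝ → ℂ} {f g f' g' : ℝ → ℂ} (h : Ap L s f g) (h' : Ap L s f' g') :
    Ap L s (fun t => f t + f' t) (fun t => g t + g' t) := by
  refine ⟨?_, h.2.1.add h'.2.1, h.2.2.add h'.2.2⟩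
  refine (h.1.add h'.1).congr_left fun t => ?_
  ring

theorem Ap.neg {L : ℕ} {s : ℝ → ℂ} {f g : ℝ → ℂ} (h : Ap L s f g) :
    Ap L s (fun t => -f t) (fun t => -g t) := by
  refine ⟨?_, h.2.1.neg_left, h.2.2.neg_left⟩
  refine h.1.neg_left.congr_left fun t => ?_
  ring

theorem Ap.prod {L : ℕ} {s : ℝ → ℂ} {κ : Type} (T : Finset κ) {f g : κ → ℝ → ℂ}
    (h : ∀ k, Ap L s (f k) (g k)) :
    Ap L s (fun t => ∏ k ∈ T, f k t) (fun t => ∏ k ∈ T, g k t) := by
  classical
  induction T using Finset.induction_on with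
  | empty => simpa using Ap.refl (isBigO_refl _ _)
  | insert a T ha ih =>
    simp only [Finset.prod_insert ha]
    exact (h a).mul ih

theorem Ap.sum {L : ℕ} {s : ℝ → ℂ} {κ : Type} (T : Finset κ) {f g : κ → ℝ → ℂ}
    (h : ∀ k, Ap L s (f k) (g k)) :
    Ap L s (fun t => ∑ k ∈ T, f k t) (fun t => ∑ k ∈ T, g k t) := by
  classical
  induction T using Finset.induction_on with
  | empty => simpa using Ap.refl (isBigO_zero _ _)
  | insert a T ha ih =>
    simp only [Finset.sum_insert ha]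
    exact (h a).add ih

theorem Ap.pow {L : ℕ} {s : ℝ → ℂ} {f g : ℝ → ℂ} (h : Ap L s f g) (n : ℕ) :
    Ap L s (fun t => f t ^ n) (fun t => g t ^ n) := by
  induction n with
  | zero => simpa using Ap.refl (isBigO_refl _ _)
  | succ n ih =>
    simp only [pow_succ]
    exact ih.mul h

/-- the tail of the power series -/
theorem tail {c : ℕ → ℂ} {τ₀ : ℍ} (hc : Summable (fun n => c n * qq 1 τ₀ ^ n)) (L : ℕ) :
    ∃ C : ℝ, ∀ q : ℂ, ‖q‖ ≤ ‖qq 1 τ₀‖ → ∀ A : ℂ, HasSum (fun n => c n * q ^ n) A →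
      ‖tr c L q - A‖ ≤ C * ‖q‖ ^ L := by
  set r := ‖qq 1 τ₀‖ with hr
  have hr0 : 0 ≤ r := norm_nonneg _
  have hnorm : Summable (fun n => ‖c n‖ * r ^ n) := by
    have := hc.norm
    simpa [norm_mul, norm_pow] using this
  have hsh : Summable (fun n => ‖c (n + L)‖ * r ^ n) := by
    by_cases hr00 : r = 0
    · refine summable_of_ne_finset_zero (s := {0}) fun n hn => ?_
      rw [hr00, zero_pow (by simpa using hn), mul_zero]
    · have h1 := ((summable_nat_add_iff L).2 hnorm).mul_right ((r ^ L)⁻¹)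
      refine h1.congr fun n => ?_
      rw [pow_add]
      field_simp
  refine ⟨∑' n, ‖c (n + L)‖ * r ^ n, fun q hq A hA => ?_⟩
  have h2 := hA.tsum_eq
  have h3 := hA.summable.sum_add_tsum_nat_add L
  have h4 : tr c L q - A = -∑' n, c (n + L) * q ^ (n + L) := by
    rw [← h2, ← h3]
    unfold tr
    ring
  rw [h4, norm_neg]
  have hle : ∀ n, ‖c (n + L) * q ^ (n + L)‖ ≤ ‖q‖ ^ L * (‖c (n + L)‖ * r ^ n) := by
    intro n
    rw [norm_mul, norm_pow, pow_add]
    have : ‖q‖ ^ n ≤ r ^ n := pow_le_pow_left₀ (norm_nonneg _) hq n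
    have h5 : 0 ≤ ‖c (n + L)‖ := norm_nonneg _
    have h6 : 0 ≤ ‖q‖ ^ L := by positivity
    calc ‖c (n + L)‖ * (‖q‖ ^ n * ‖q‖ ^ L) ≤ ‖c (n + L)‖ * (r ^ n * ‖q‖ ^ L) := by gcongr
      _ = _ := by ring
  have h7 : Summable (fun n => ‖q‖ ^ L * (‖c (n + L)‖ * r ^ n)) := hsh.mul_left _
  calc ‖∑' n, c (n + L) * q ^ (n + L)‖ ≤ ∑' n, ‖q‖ ^ L * (‖c (n + L)‖ * r ^ n) :=
        tsum_of_norm_bounded h7.hasSum hle
    _ = ‖q‖ ^ L * ∑' n, ‖c (n + L)‖ * r ^ n := tsum_mul_left
    _ = _ := mul_comm _ _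

/-- the point `i t` of the upper half plane -/
noncomputable def pt (t : ℝ) : ℍ := ⟨Complex.I * (|t| + 1 : ℝ), by simp; positivity⟩

theorem pt_coe (t : ℝ) : ((pt t : ℍ) : ℂ) = Complex.I * (|t| + 1 : ℝ) := rfl

theorem qq_norm (N : ℕ) (t : ℝ) : ‖qq N (pt t)‖ = Real.exp (-(2 * Real.pi * (|t| + 1) / N)) := by
  unfold qq
  rw [Complex.norm_exp, pt_coe]
  congr 1
  have : (2 * Real.pi * Complex.I * (Complex.I * ((|t| + 1 : ℝ) : ℂ)) / N : ℂ) =
      ((-(2 * Real.pi * (|t| + 1) / N) : ℝ) : ℂ) := by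
    push_cast
    have := Complex.I_mul_I
    linear_combination (2 * Real.pi * (|t| + 1) / N : ℂ) * this
  rw [this, Complex.ofReal_re]

theorem qq_ne (N : ℕ) (τ : ℍ) : qq N τ ≠ 0 := Complex.exp_ne_zero _

theorem qq_pow {N : ℕ} (hN : 0 < N) (τ : ℍ) : qq N τ ^ N = qq 1 τ := by
  unfold qq
  rw [← Complex.exp_nat_mul]
  congr 1
  have : (N : ℂ) ≠ 0 := by exact_mod_cast hN.ne'
  push_cast
  field_simp

theorem qq_trans {N a d : ℕ} {b : ℤ} (ha : 0 < a) (hd : 0 < d) (had : a * d = N) {τ w : ℍ}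
    (h : (w : ℂ) * d = a * τ + b) :
    qq 1 w = Complex.exp (2 * Real.pi * Complex.I * b / d) * qq N τ ^ (a ^ 2) := by
  unfold qq
  rw [← Complex.exp_nat_mul, ← Complex.exp_add]
  congr 1
  have hd' : (d : ℂ) ≠ 0 := by exact_mod_cast hd.ne'
  have ha' : (a : ℂ) ≠ 0 := by exact_mod_cast ha.ne'
  have hw : (w : ℂ) = (a * τ + b) / d := by
    rw [eq_div_iff hd', h]
  rw [hw, ← had]
  push_cast
  field_simp
  ring

theorem s_tendsto {N : ℕ} (hN : 0 < N) : Tendsto (fun t => qq N (pt t)) atTop (𝓝 0) := by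
  rw [tendsto_zero_iff_norm_tendsto_zero]
  simp only [qq_norm]
  have hN' : (0 : ℝ) < N := by exact_mod_cast hN
  refine Real.tendsto_exp_atBot.comp ?_
  refine tendsto_neg_atTop_atBot.comp ?_
  have h1 : Tendsto (fun t : ℝ => |t| + 1) atTop atTop :=
    tendsto_atTop_add_const_right _ _ (tendsto_abs_atTop_atTop)
  have h2 := h1.const_mul_atTop (show (0 : ℝ) < 2 * Real.pi / N by positivity)
  refine h2.congr fun t => ?_
  ring

theorem s_le {N : ℕ} (t : ℝ) : ‖qq N (pt t)‖ ≤ 1 := by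
  rw [qq_norm]
  apply Real.exp_le_one_iff.2
  have : (0 : ℝ) ≤ 2 * Real.pi * (|t| + 1) / N := by positivity
  linarith

/-- values of the power series -/
theorem ap_series {c : ℕ → ℂ} (hc : ∀ τ : ℍ, HasSum (fun n => c n * qq 1 τ ^ n) (qq 1 τ ^ 1 * jj τ))
    {N : ℕ} (hN : 0 < N) (L : ℕ) {w : ℝ → ℍ} {u : ℂ} {e : ℕ} (he : 0 < e) (hu : ‖u‖ = 1)
    (hw : ∀ t, qq 1 (w t) = u * qq N (pt t) ^ e) :
    Ap L (fun t => qq N (pt t)) (fun t => tr c L (u * qq N (pt t) ^ e))
      (fun t => u * qq N (pt t) ^ e * jj (w t)) := by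
  obtain ⟨C, hC⟩ := tail (hc (pt 0)).summable L
  have hs := s_tendsto hN
  have hq : Tendsto (fun t => u * qq N (pt t) ^ e) atTop (𝓝 0) := by
    have := (hs.pow e).const_mul u
    rwa [zero_pow he.ne', mul_zero] at this
  have hsum : ∀ t, HasSum (fun n => c n * (u * qq N (pt t) ^ e) ^ n)
      (u * qq N (pt t) ^ e * jj (w t)) := by
    intro t
    have := hc (w t)
    rwa [pow_one, hw t] at this
  have hqb : (fun t => u * qq N (pt t) ^ e) =O[atTop] (fun _ => (1 : ℂ)) := hq.isBigO_one ℂ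
  have hr : 0 < ‖qq 1 (pt 0)‖ := norm_pos_iff.2 (qq_ne 1 _)
  have hev : ∀ᶠ t in atTop, ‖u * qq N (pt t) ^ e‖ ≤ ‖qq 1 (pt 0)‖ := by
    have h1 := (tendsto_zero_iff_norm_tendsto_zero.1 hq).eventually (gt_mem_nhds hr)
    exact h1.mono fun t ht => ht.le
  have hle : ∀ t, ‖u * qq N (pt t) ^ e‖ ≤ ‖qq N (pt t)‖ := by
    intro t
    rw [norm_mul, hu, one_mul, norm_pow]
    calc ‖qq N (pt t)‖ ^ e ≤ ‖qq N (pt t)‖ ^ 1 := pow_le_pow_of_le_one (norm_nonneg _) (s_le t) he
      _ = _ := pow_one _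
  have hmain : (fun t => tr c L (u * qq N (pt t) ^ e) - u * qq N (pt t) ^ e * jj (w t)) =O[atTop]
      (fun t => qq N (pt t) ^ L) := by
    refine IsBigO.of_bound |C| (hev.mono fun t ht => ?_)
    calc _ ≤ C * ‖u * qq N (pt t) ^ e‖ ^ L := hC _ ht _ (hsum t)
      _ ≤ |C| * ‖u * qq N (pt t) ^ e‖ ^ L := by
          gcongr
          exact le_abs_self C
      _ ≤ |C| * ‖qq N (pt t)‖ ^ L := by
          gcongr
          exact hle t
      _ = |C| * ‖qq N (pt t) ^ L‖ := by rw [norm_pow]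
  have htr : (fun t => tr c L (u * qq N (pt t) ^ e)) =O[atTop] (fun _ => (1 : ℂ)) := by
    unfold tr
    have hsum' : ∀ T : Finset ℕ, (fun t => ∑ n ∈ T, c n * (u * qq N (pt t) ^ e) ^ n) =O[atTop]
        (fun _ => (1 : ℂ)) := by
      classical
      intro T
      induction T using Finset.induction_on with
      | empty =>
        simp only [Finset.sum_empty]
        exact (isBigO_zero (fun _ : ℝ => (1 : ℂ)) atTop :
          (fun _ : ℝ => (0 : ℂ)) =O[atTop] (fun _ => (1 : ℂ)))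
      | insert a T ha ih =>
        simp only [Finset.sum_insert ha]
        refine IsBigO.add ?_ ih
        have h1 : (fun t => (u * qq N (pt t) ^ e) ^ a) =O[atTop] (fun _ => (1 : ℂ)) := by
          simpa using hqb.pow a
        exact h1.const_mul_left (c a)
    exact hsum' _
  have hb1 : (fun t => qq N (pt t) ^ L) =O[atTop] (fun _ => (1 : ℂ)) := by
    have h1 : (fun t => qq N (pt t)) =O[atTop] (fun _ => (1 : ℂ)) := hs.isBigO_one ℂ
    have h2 := h1.pow L
    simpa using h2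
  refine ⟨hmain, htr, ?_⟩
  have h2 := htr.sub (hmain.trans hb1)
  refine h2.congr_left fun t => ?_
  ring

/-- the truncated series of a polynomial -/
noncomputable def trp (c : ℕ → ℂ) (L : ℕ) (Y : ℂ[X]) : ℂ[X] :=
  ∑ n ∈ Finset.range L, C (c n) * Y ^ n

theorem eval_trp (c : ℕ → ℂ) (L : ℕ) (Y : ℂ[X]) (s : ℂ) :
    (trp c L Y).eval s = tr c L (Y.eval s) := by
  unfold trp tr
  rw [eval_finsetSum]
  simp only [eval_mul, eval_C, eval_pow]

theorem trp_mem {c : ℕ → ℂ} (hc : ∀ n, IsIntegral ℤ (c n)) (L : ℕ) {Y : ℂ[X]} (hY : Y ∈ IntP) :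
    trp c L Y ∈ IntP :=
  sum_mem fun n _ => mul_mem (C_mem (hc n)) (pow_mem hY n)

theorem data (c : ℕ → ℂ) (hc0 : c 0 = 1) (hci : ∀ n, IsIntegral ℤ (c n))
    (hc : ∀ τ : ℍ, HasSum (fun n => c n * qq 1 τ ^ n) (qq 1 τ ^ 1 * jj τ)) (N : ℕ) (hN : 0 < N) :
    ∃ (ι : Type) (_ : Fintype ι) (_ : DecidableEq ι) (α δ : ι → ℕ) (ξ : ι → ℂ) (P : ℕ → ℂ[X])
      (g : ℕ), Dat c N ι α δ ξ P g ∧
      ∀ (τ w : ℍ) (a b c d : ℤ), a * d - b * c = N → (w : ℂ) * (c * τ + d) = a * τ + b →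
        ∑ m ∈ Finset.range (Fintype.card ι + 1), (P m).eval (jj τ) *
          jj w ^ (Fintype.card ι - m) = 0 := by
  classical
  obtain ⟨ι, _, _, α, δ, β, h, P, h1, h2, hPi, hP0, hPR, hrel⟩ := coeff_fun N hN
  set ξ : ι → ℂ := fun k => Complex.exp (2 * Real.pi * Complex.I * β k / δ k) with hξ
  have hξroot : ∀ k, ξ k ^ δ k = 1 := by
    intro k
    have hd : (δ k : ℂ) ≠ 0 := by exact_mod_cast (h1 k).2.1.ne'
    change Complex.exp (2 * Real.pi * Complex.I * β k / δ k) ^ (δ k) = 1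
    rw [← Complex.exp_nat_mul, Complex.exp_eq_one_iff]
    refine ⟨β k, ?_⟩
    field_simp
  have hξnorm : ∀ k, ‖ξ k‖ = 1 := fun k =>
    Complex.norm_eq_one_of_pow_eq_one (hξroot k) (h1 k).2.1.ne'
  have hξint : ∀ k, IsIntegral ℤ (ξ k) := fun k =>
    IsIntegral.of_pow (h1 k).2.1 (by rw [hξroot]; exact isIntegral_one)
  set g := (Finset.range (Fintype.card ι + 1)).sup (fun m => (P m).natDegree) with hg
  have hdeg : ∀ m ≤ Fintype.card ι, (P m).natDegree ≤ g := fun m hm =>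
    Finset.le_sup (f := fun m => (P m).natDegree) (Finset.mem_range.2 (by omega))
  refine ⟨ι, inferInstance, inferInstance, α, δ, ξ, P, g,
    ⟨hc0, hci, hN, h1, hξroot, hdeg, hP0, ?_⟩, hrel⟩
  intro L m hm
  let Z : ι → ℂ[X] := fun k => C (ξ k) * X ^ (α k ^ 2)
  let W : ℂ[X] := (∏ k, Z k) *
      (∑ j ∈ Finset.range (g + 1), C ((P m).coeff j) * trp c L (X ^ N) ^ j * (X ^ N) ^ (g - j)) -
    X ^ (N * g) * (∑ S ∈ Finset.powersetCard m (Finset.univ : Finset ι),
        (∏ k ∈ S, -trp c L (Z k)) * ∏ k ∈ Finset.univ \ S, Z k)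
  have hZ : ∀ k, Z k ∈ IntP := fun k => mul_mem (C_mem (hξint k)) (pow_mem X_mem _)
  have hW : W ∈ IntP := by
    refine sub_mem (mul_mem (prod_mem fun k _ => hZ k) (sum_mem fun j _ =>
      mul_mem (mul_mem (C_mem (hPi m j)) (pow_mem (trp_mem hci L (pow_mem X_mem _)) _))
        (pow_mem (pow_mem X_mem _) _))) (mul_mem (pow_mem X_mem _) (sum_mem fun S _ =>
      mul_mem (prod_mem fun k _ => neg_mem (trp_mem hci L (hZ k))) (prod_mem fun k _ => hZ k)))
  have hZe : ∀ k s, (Z k).eval s = ξ k * s ^ (α k ^ 2) := by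
    intro k s
    simp only [Z, eval_mul, eval_C, eval_pow, eval_X]
  have hWe : ∀ s : ℂ, W.eval s = (∏ k, ξ k * s ^ (α k ^ 2)) *
        (∑ j ∈ Finset.range (g + 1), (P m).coeff j * tr c L (s ^ N) ^ j * (s ^ N) ^ (g - j)) -
      s ^ (N * g) * (∑ S ∈ Finset.powersetCard m (Finset.univ : Finset ι),
        (∏ k ∈ S, -tr c L (ξ k * s ^ (α k ^ 2))) *
          ∏ k ∈ Finset.univ \ S, (ξ k * s ^ (α k ^ 2))) := by
    intro s
    simp only [W, eval_sub, eval_mul, eval_prod, eval_finsetSum, eval_pow, eval_X, eval_C,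
      eval_neg, eval_trp, hZe]
  -- the sequence
  set s : ℝ → ℂ := fun t => qq N (pt t) with hs
  have hs0 : ∀ t, s t ≠ 0 := fun t => qq_ne N _
  have hst : Tendsto s atTop (𝓝 0) := s_tendsto hN
  have hsb : s =O[atTop] (fun _ => (1 : ℂ)) := hst.isBigO_one ℂ
  have hspow : ∀ n : ℕ, (fun t => s t ^ n) =O[atTop] (fun _ => (1 : ℂ)) := by
    intro n
    simpa using hsb.pow n
  have hconst : ∀ z : ℂ, Ap L s (fun _ => z) (fun _ => z) := fun z =>
    Ap.refl (isBigO_const_const z one_ne_zero _)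
  have hmon : ∀ (z : ℂ) (n : ℕ), Ap L s (fun t => z * s t ^ n) (fun t => z * s t ^ n) := fun z n =>
    Ap.refl ((hspow n).const_mul_left z)
  -- the power series
  have hA1 : Ap L s (fun t => tr c L (s t ^ N)) (fun t => s t ^ N * jj (pt t)) := by
    have h3 := ap_series hc hN L (w := fun t => pt t) (u := 1) (e := N) hN (by simp)
      (fun t => by rw [one_mul, qq_pow hN])
    simpa only [one_mul] using h3
  have hAk : ∀ k, Ap L s (fun t => tr c L (ξ k * s t ^ (α k ^ 2)))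
      (fun t => ξ k * s t ^ (α k ^ 2) * jj (h k (pt t))) := fun k =>
    ap_series hc hN L (w := fun t => h k (pt t)) (u := ξ k) (e := α k ^ 2)
      (by have := (h1 k).1; positivity) (hξnorm k)
      (fun t => qq_trans (h1 k).1 (h1 k).2.1 (h1 k).2.2 (h2 k (pt t)))
  have hpw : ∀ n : ℕ, Ap L s (fun t => (s t ^ N) ^ n) (fun t => (s t ^ N) ^ n) := fun n =>
    Ap.refl (by simpa only [← pow_mul] using hspow (N * n))
  have t1 := (Ap.prod (L := L) (s := s) Finset.univ (fun k => hmon (ξ k) (α k ^ 2))).mul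
    (Ap.sum (Finset.range (g + 1)) fun j =>
      ((hconst ((P m).coeff j)).mul (hA1.pow j)).mul (hpw (g - j)))
  have t2 := (Ap.refl (L := L) (s := s) (hspow (N * g))).mul
    (Ap.sum (Finset.powersetCard m (Finset.univ : Finset ι)) fun S =>
      (Ap.prod S fun k => (hAk k).neg).mul
        (Ap.prod (L := L) (s := s) (Finset.univ \ S) (fun k => hmon (ξ k) (α k ^ 2))))
  have t3 := (t1.add t2.neg).1
  have hO : (fun t => W.eval (s t)) =O[atTop] (fun t => s t ^ L) := by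
    refine t3.congr_left fun t => ?_
    have hzero : (∏ k, ξ k * s t ^ (α k ^ 2)) *
        (∑ j ∈ Finset.range (g + 1), (P m).coeff j * (s t ^ N * jj (pt t)) ^ j *
          (s t ^ N) ^ (g - j)) =
        s t ^ (N * g) * (∑ S ∈ Finset.powersetCard m (Finset.univ : Finset ι),
          (∏ k ∈ S, -(ξ k * s t ^ (α k ^ 2) * jj (h k (pt t)))) *
            ∏ k ∈ Finset.univ \ S, (ξ k * s t ^ (α k ^ 2))) := by
      have e1 : (∑ j ∈ Finset.range (g + 1), (P m).coeff j * (s t ^ N * jj (pt t)) ^ j *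
          (s t ^ N) ^ (g - j)) = s t ^ (N * g) * (P m).eval (jj (pt t)) := by
        rw [eval_eq_sum_range' (Nat.lt_succ_of_le (hdeg m hm)), Finset.mul_sum]
        refine Finset.sum_congr rfl fun j hj => ?_
        have hj' : j ≤ g := Nat.lt_succ_iff.1 (Finset.mem_range.1 hj)
        have e2 : s t ^ (N * g) = (s t ^ N) ^ j * (s t ^ N) ^ (g - j) := by
          rw [← pow_add, pow_mul]
          congr 1
          omega
        rw [e2, mul_pow]
        ring
      have e3 : (∑ S ∈ Finset.powersetCard m (Finset.univ : Finset ι),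
          (∏ k ∈ S, -(ξ k * s t ^ (α k ^ 2) * jj (h k (pt t)))) *
            ∏ k ∈ Finset.univ \ S, (ξ k * s t ^ (α k ^ 2))) =
          (∏ k, ξ k * s t ^ (α k ^ 2)) * (P m).eval (jj (pt t)) := by
        rw [← hPR m hm, Finset.mul_sum]
        refine Finset.sum_congr rfl fun S _ => ?_
        rw [← Finset.prod_sdiff (Finset.subset_univ S)]
        have e4 : ∏ k ∈ S, -(ξ k * s t ^ (α k ^ 2) * jj (h k (pt t))) =
            (∏ k ∈ S, (ξ k * s t ^ (α k ^ 2))) * ∏ k ∈ S, -jj (h k (pt t)) := by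
          rw [← Finset.prod_mul_distrib]
          exact Finset.prod_congr rfl fun k _ => by ring
        rw [e4]
        ring
      rw [e1, e3]
      ring
    rw [hWe]
    linear_combination -hzero
  obtain ⟨V, hV⟩ := dvd_of_isBigO s hs0 hst W L hO
  refine ⟨V, fun k => ?_, fun z => ?_⟩
  · have h3 := hW (k + L)
    rwa [hV, coeff_X_pow_mul] at h3
  · rw [← hWe, hV, eval_mul, eval_pow, eval_X]

end Pool.Agent.U854.CQ
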