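import Pool.Agent.U854.CQ.Coef
import Pool.Agent.U780.CQ.Pair
import Pool.Agent.U854.OP.Tors

/-!
# The local law at the cusp

`cusp_law`: if `x`, `x'` are the `j`-invariants of isogenous curves and `x` has a pole at the valuation
ring `O`, then `x'^d = ζ x^a (1 + ε)` with coprime `a, d ≥ 1`, a root of unity `ζ` and
`|ε| ≤ max (1/|x|) (1/|x'|)`. `near_law`: the consequence for the terms of first order.
(`S_PAIR` was proved by helper780.)
-/

set_option autoImplicit false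

open UpperHalfPlane Polynomial H294ZP Pool.Agent.W282.ZP Pool.Agent.U854.OP

namespace Pool.Agent.U854.CQ

theorem cusp_law (O : ValuationSubring ℂ) {τ τ' : ℍ} {g : Matrix (Fin 2) (Fin 2) ℤ}
    (hg : 0 < g.det) (hrel : (τ' : ℂ) * (g 1 0 * τ + g 1 1) = g 0 0 * τ + g 0 1)
    (hx : 1 < O.valuation (jj τ)) :
    1 < O.valuation (jj τ') ∧ ∃ (a d : ℕ) (ζ : ℂ), 0 < a ∧ 0 < d ∧ a.Coprime d ∧
      (∃ r : ℕ, 0 < r ∧ ζ ^ r = 1) ∧
      O.valuation (jj τ' ^ d / (ζ * jj τ ^ a) - 1) ≤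
        max (O.valuation (jj τ))⁻¹ (O.valuation (jj τ'))⁻¹ := by
  obtain ⟨c, hc0, hci, hc⟩ := ta2
  obtain ⟨N, hN⟩ := Int.eq_ofNat_of_zero_le hg.le
  have hN0 : 0 < N := by
    rw [hN] at hg
    exact_mod_cast hg
  have hdet : g 0 0 * g 1 1 - g 0 1 * g 1 0 = N := by
    rw [← Matrix.det_fin_two, hN]
  obtain ⟨ι, _, _, α, δ, ξ, P, m, hD, hR⟩ := data c hc0 hci hc N hN0
  have h1 := hR τ τ' (g 0 0) (g 0 1) (g 1 0) (g 1 1) hdet hrel
  obtain ⟨Ψ, -, h2, h3⟩ := modular_relation N hN0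
  have h4 := h2 τ τ' (g 0 0) (g 0 1) (g 1 0) (g 1 1) hdet hrel
  have h5 := (h3 ℂ O (jj τ) (jj τ') h4).2 hx
  exact Pool.Agent.U780.CQ.Pair.pair c N ι α δ ξ P m hD O (jj τ) (jj τ') hx h5 h1

/-- roots of unity near to `1` -/
theorem root_eq_one {O : ValuationSubring ℂ} {p : ℕ} (hp : p.Prime) (hpO : O.valuation (p : ℂ) < 1)
    {ζ : ℂ} {r : ℕ} (hr : 0 < r) (h : ζ ^ r = 1)
    (hlt : O.valuation (ζ - 1) ^ (p - 1) < O.valuation (p : ℂ)) : ζ = 1 := by
  have h1 := pow_val O hp hpO hlt hr.ne'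
  rw [show 1 + (ζ - 1) = ζ by ring, h, sub_self, map_zero] at h1
  have h2 : O.valuation (r : ℂ) ≠ 0 := (Valuation.ne_zero_iff _).2 (by exact_mod_cast hr.ne')
  have h3 : O.valuation (ζ - 1) = 0 := (mul_eq_zero.1 h1.symm).resolve_left h2
  exact sub_eq_zero.1 ((Valuation.zero_iff _).1 h3)

/-- the first order of a power -/
theorem pow_exp {O : ValuationSubring ℂ} {u : ℂ} (hu : O.valuation u ≤ 1) (b : ℕ) :
    ∃ z ∈ O, (1 + u) ^ b = 1 + b * u + u ^ 2 * z := by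
  have huO : u ∈ O := (O.valuation_le_one_iff _).1 hu
  induction b with
  | zero => exact ⟨0, O.zero_mem, by simp⟩
  | succ b ih =>
    obtain ⟨z, hz, h⟩ := ih
    refine ⟨z + b + u * z, O.add_mem _ _ (O.add_mem _ _ hz (natCast_mem O b))
      (O.mul_mem _ _ huO hz), ?_⟩
    rw [pow_succ, h]
    push_cast
    ring

/-- **The law for the terms of first order near to the cusp.** -/
theorem near_law {O : ValuationSubring ℂ} {p : ℕ} (hp : p.Prime) (hpO : O.valuation (p : ℂ) < 1)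
    {ϖ ν : ℂ} (hϖ0 : ϖ ≠ 0) (hϖ : O.valuation ϖ < 1) (hν0 : ν ≠ 0)
    (hν : O.valuation ν ^ (p - 1) < O.valuation (p : ℂ)) {e e' : ℕ} (he : 0 < e) (he' : 0 < e')
    (h1 : O.valuation ϖ ^ e < O.valuation ν) (h2 : O.valuation ϖ ^ e' < O.valuation ν)
    {ω ω' y y' : ℂ} (hω : ∃ r : ℕ, 0 < r ∧ ω ^ r = 1) (hω' : ∃ r : ℕ, 0 < r ∧ ω' ^ r = 1)
    (hy : O.valuation y ≤ 1) (hy' : O.valuation y' ≤ 1) {τ τ' : ℍ}
    (hx : jj τ * ϖ ^ e = ω * (1 + ν * y)) (hx' : jj τ' * ϖ ^ e' = ω' * (1 + ν * y'))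
    {g : Matrix (Fin 2) (Fin 2) ℤ} (hg : 0 < g.det)
    (hrel : (τ' : ℂ) * (g 1 0 * τ + g 1 1) = g 0 0 * τ + g 0 1) :
    O.valuation ((e / Nat.gcd e e' : ℕ) * y' - (e' / Nat.gcd e e' : ℕ) * y) < 1 := by
  have hp1 : p - 1 ≠ 0 := by have := hp.two_le; omega
  have hν1 : O.valuation ν < 1 := by
    by_contra h
    have h1 : 1 ≤ O.valuation ν ^ (p - 1) := one_le_pow₀ (not_lt.1 h)
    exact absurd (h1.trans_lt (hν.trans hpO)) (lt_irrefl _)
  have hνpos : 0 < O.valuation ν := zero_lt_iff.2 ((Valuation.ne_zero_iff _).2 hν0)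
  have hroot : ∀ {z : ℂ}, (∃ r : ℕ, 0 < r ∧ z ^ r = 1) → O.valuation z = 1 := by
    rintro z ⟨r, hr, h⟩
    exact val_root_of_unity O hr h
  have hsm : ∀ {z : ℂ}, O.valuation z ≤ 1 → O.valuation (ν * z) ≤ O.valuation ν := by
    intro z hz
    rw [map_mul]
    exact mul_le_of_le_one_right' hz
  have hone : ∀ {z : ℂ}, O.valuation z ≤ 1 → O.valuation (1 + ν * z) = 1 := fun hz =>
    val_one_add O ((hsm hz).trans_lt hν1)
  have hϖv : O.valuation ϖ ≠ 0 := (Valuation.ne_zero_iff _).2 hϖ0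
  have hϖpos : 0 < O.valuation ϖ := zero_lt_iff.2 hϖv
  have hvx : O.valuation (jj τ) * O.valuation ϖ ^ e = 1 := by
    have := congrArg O.valuation hx
    rwa [map_mul, map_pow, map_mul, hroot hω, hone hy, one_mul] at this
  have hvx' : O.valuation (jj τ') * O.valuation ϖ ^ e' = 1 := by
    have := congrArg O.valuation hx'
    rwa [map_mul, map_pow, map_mul, hroot hω', hone hy', one_mul] at this
  have hinv : (O.valuation (jj τ))⁻¹ = O.valuation ϖ ^ e := inv_eq_of_mul_eq_one_right hvx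
  have hinv' : (O.valuation (jj τ'))⁻¹ = O.valuation ϖ ^ e' := inv_eq_of_mul_eq_one_right hvx'
  have hpow1 : O.valuation ϖ ^ e < 1 := pow_lt_one₀ zero_le hϖ he.ne'
  have hx1 : 1 < O.valuation (jj τ) := by
    rw [← inv_inv (O.valuation (jj τ)), hinv]
    exact (one_lt_inv₀ (pow_pos hϖpos _)).2 hpow1
  obtain ⟨-, a, d, ζ, ha, hd, hco, ⟨r, hr, hζ⟩, hlaw⟩ := cusp_law O hg hrel hx1
  rw [hinv, hinv'] at hlaw
  have hlaw' : O.valuation (jj τ' ^ d / (ζ * jj τ ^ a) - 1) < O.valuation ν :=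
    hlaw.trans_lt (max_lt h1 h2)
  have hζv : O.valuation ζ = 1 := hroot ⟨r, hr, hζ⟩
  have hζ0 : ζ ≠ 0 := by
    rintro rfl
    rw [map_zero] at hζv
    exact zero_ne_one hζv
  have hj0 : jj τ ≠ 0 := by
    intro h
    rw [h, map_zero] at hx1
    exact not_lt_zero hx1
  -- the exponents
  have hq1 : O.valuation (jj τ' ^ d / (ζ * jj τ ^ a)) = 1 := by
    have h3 : jj τ' ^ d / (ζ * jj τ ^ a) = 1 + (jj τ' ^ d / (ζ * jj τ ^ a) - 1) := by ring
    rw [h3]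
    exact val_one_add O (hlaw'.trans hν1)
  have hexp : d * e' = a * e := by
    rw [map_div₀, map_mul, hζv, one_mul, map_pow, map_pow] at hq1
    have h3 : O.valuation (jj τ) ^ a ≠ 0 := pow_ne_zero _ (zero_lt_one.trans hx1).ne'
    rw [div_eq_one_iff_eq h3] at hq1
    have h4 : O.valuation ϖ ^ (d * e') = O.valuation ϖ ^ (a * e) := by
      have e1 : (O.valuation (jj τ') * O.valuation ϖ ^ e') ^ d = 1 := by rw [hvx', one_pow]
      have e2 : (O.valuation (jj τ) * O.valuation ϖ ^ e) ^ a = 1 := by rw [hvx, one_pow]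
      rw [mul_pow, ← pow_mul, mul_comm e' d, hq1] at e1
      rw [mul_pow, ← pow_mul, mul_comm e a] at e2
      exact mul_left_cancel₀ h3 (e1.trans e2.symm)
    by_contra hne
    rcases lt_or_gt_of_ne hne with h | h
    · exact absurd h4 (pow_lt_pow_right_of_lt_one₀ hϖpos hϖ h).ne'
    · exact absurd h4 (pow_lt_pow_right_of_lt_one₀ hϖpos hϖ h).ne
  obtain ⟨t, ht⟩ : d ∣ e := (Nat.Coprime.dvd_of_dvd_mul_left hco.symm ⟨e', hexp.symm⟩)
  have ht' : e' = a * t := by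
    have : d * e' = d * (a * t) := by rw [hexp, ht]; ring
    exact Nat.eq_of_mul_eq_mul_left hd this
  have htpos : 0 < t := by
    rcases Nat.eq_zero_or_pos t with h | h
    · rw [ht, h, mul_zero] at he
      exact absurd he (lt_irrefl _)
    · exact h
  have hgcd : Nat.gcd e e' = t := by
    rw [ht, ht', Nat.gcd_mul_right, hco.symm.gcd_eq_one, one_mul]
  have hed : e / Nat.gcd e e' = d := by
    rw [hgcd, ht]
    exact Nat.mul_div_cancel _ htpos
  have hea : e' / Nat.gcd e e' = a := by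
    rw [hgcd, ht']
    exact Nat.mul_div_cancel _ htpos
  rw [hed, hea]
  -- the quotient
  have hϖe : ϖ ^ (d * e') ≠ 0 := pow_ne_zero _ hϖ0
  have hω0 : ∀ {z : ℂ}, (∃ r : ℕ, 0 < r ∧ z ^ r = 1) → z ≠ 0 := by
    rintro z ⟨r, hr, h⟩ rfl
    rw [zero_pow hr.ne'] at h
    exact zero_ne_one h
  have hy0 : ∀ {z : ℂ}, O.valuation z ≤ 1 → 1 + ν * z ≠ 0 := by
    intro z hz h
    have h3 := hone hz
    rw [h, map_zero] at h3
    exact zero_ne_one h3
  set κ : ℂ := ω' ^ d / (ζ * ω ^ a) with hκ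
  have hκroot : ∃ r : ℕ, 0 < r ∧ κ ^ r = 1 := by
    obtain ⟨r₁, hr₁, h₁⟩ := hω
    obtain ⟨r₂, hr₂, h₂⟩ := hω'
    refine ⟨r * (r₁ * r₂), by positivity, ?_⟩
    rw [hκ, div_pow, mul_pow]
    have e1 : (ω' ^ d) ^ (r * (r₁ * r₂)) = 1 := by
      rw [← pow_mul, show d * (r * (r₁ * r₂)) = r₂ * (d * r * r₁) by ring, pow_mul, h₂, one_pow]
    have e2 : (ω ^ a) ^ (r * (r₁ * r₂)) = 1 := by
      rw [← pow_mul, show a * (r * (r₁ * r₂)) = r₁ * (a * r * r₂) by ring, pow_mul, h₁, one_pow]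
    have e3 : ζ ^ (r * (r₁ * r₂)) = 1 := by rw [pow_mul, hζ, one_pow]
    rw [e1, e2, e3]
    norm_num
  have hκv : O.valuation κ = 1 := hroot hκroot
  have hquot : jj τ' ^ d / (ζ * jj τ ^ a) = κ * ((1 + ν * y') ^ d / (1 + ν * y) ^ a) := by
    have e1 : jj τ' ^ d * ϖ ^ (d * e') = ω' ^ d * (1 + ν * y') ^ d := by
      rw [mul_comm d e', pow_mul, ← mul_pow, hx', mul_pow]
    have e2 : jj τ ^ a * ϖ ^ (d * e') = ω ^ a * (1 + ν * y) ^ a := by
      rw [hexp, mul_comm a e, pow_mul, ← mul_pow, hx, mul_pow]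
    rw [hκ, ← mul_div_mul_right (jj τ' ^ d) (ζ * jj τ ^ a) hϖe, mul_assoc ζ, e1, e2]
    have := hω0 hω
    have := hy0 hy
    field_simp
  have hmain : O.valuation (κ * (1 + ν * y') ^ d - (1 + ν * y) ^ a) < O.valuation ν := by
    have e1 : κ * (1 + ν * y') ^ d - (1 + ν * y) ^ a =
        (jj τ' ^ d / (ζ * jj τ ^ a) - 1) * (1 + ν * y) ^ a := by
      rw [hquot]
      have := hy0 hy
      field_simp
    rw [e1, map_mul, map_pow, hone hy, one_pow, mul_one]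
    exact hlaw'
  obtain ⟨z, hz, hzz⟩ := pow_exp (O := O) (u := ν * y) (((hsm hy).trans hν1.le)) a
  obtain ⟨z', hz', hzz'⟩ := pow_exp (O := O) (u := ν * y') (((hsm hy').trans hν1.le)) d
  have hyO : y ∈ O := (O.valuation_le_one_iff _).1 hy
  have hyO' : y' ∈ O := (O.valuation_le_one_iff _).1 hy'
  have hνO : ν ∈ O := (O.valuation_le_one_iff _).1 hν1.le
  -- `κ` is near to `1`
  have hκ1 : κ = 1 := by
    obtain ⟨r', hr', h'⟩ := hκroot
    refine root_eq_one hp hpO hr' h' ?_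
    have e1 : κ - 1 = (κ * (1 + ν * y') ^ d - (1 + ν * y) ^ a) +
        ν * ((a * y + ν * (y ^ 2 * z)) - κ * (d * y' + ν * (y' ^ 2 * z'))) := by
      rw [hzz, hzz']
      ring
    have h3 : O.valuation (κ - 1) ≤ O.valuation ν := by
      rw [e1]
      refine Valuation.map_add_le _ hmain.le (hsm ((O.valuation_le_one_iff _).2 ?_))
      refine O.sub_mem (O.add_mem _ _ (O.mul_mem _ _ (natCast_mem O a) hyO)
        (O.mul_mem _ _ hνO (O.mul_mem _ _ (O.pow_mem hyO _) hz)))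
        (O.mul_mem _ _ ((O.valuation_le_one_iff _).1 hκv.le) (O.add_mem _ _
        (O.mul_mem _ _ (natCast_mem O d) hyO')
        (O.mul_mem _ _ hνO (O.mul_mem _ _ (O.pow_mem hyO' _) hz'))))
    exact (pow_le_pow_left₀ zero_le h3 _).trans_lt hν
  rw [hκ1, one_mul, hzz, hzz'] at hmain
  have e1 : ((d : ℕ) : ℂ) * y' - (a : ℕ) * y =
      ν⁻¹ * ((1 + d * (ν * y') + (ν * y') ^ 2 * z') - (1 + a * (ν * y) + (ν * y) ^ 2 * z)) +
        ν * (y ^ 2 * z - y' ^ 2 * z') := by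
    field_simp
    ring
  rw [e1]
  refine Valuation.map_add_lt _ ?_ ?_
  · rw [map_mul, map_inv₀]
    calc (O.valuation ν)⁻¹ * _ < (O.valuation ν)⁻¹ * O.valuation ν :=
          mul_lt_mul_of_pos_left hmain (inv_pos.2 hνpos)
      _ = 1 := inv_mul_cancel₀ hνpos.ne'
  · refine (hsm ((O.valuation_le_one_iff _).2 ?_)).trans_lt hν1
    exact O.sub_mem (O.mul_mem _ _ (O.pow_mem hyO _) hz) (O.mul_mem _ _ (O.pow_mem hyO' _) hz')

end Pool.Agent.U854.CQ
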