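import Mathlib

/-!
# Statements: the modular equation in terms of truncated `q`-expansions (project QC, helper854)
-/

set_option autoImplicit false

open Polynomial

namespace Pool.Agent.U854.CQ

/-- the truncated power series `∑_{n < L} c_n q^n` -/
noncomputable def tr (c : ℕ → ℂ) (L : ℕ) (q : ℂ) : ℂ := ∑ n ∈ Finset.range L, c n * q ^ n

/-- The coefficients of the modular equation of degree `N`: the indices `k` belong to the matrices
`(α_k β_k; 0 δ_k)`, `ξ_k = exp (2 π i β_k / δ_k)`, and `P_m` is the `m`-th coefficient. -/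
structure Dat (c : ℕ → ℂ) (N : ℕ) (ι : Type) [Fintype ι] [DecidableEq ι] (α δ : ι → ℕ)
    (ξ : ι → ℂ) (P : ℕ → ℂ[X]) (g : ℕ) : Prop where
  c_zero : c 0 = 1
  c_int : ∀ n, IsIntegral ℤ (c n)
  N_pos : 0 < N
  pos : ∀ k, 0 < α k ∧ 0 < δ k ∧ α k * δ k = N
  root : ∀ k, ξ k ^ δ k = 1
  deg : ∀ m ≤ Fintype.card ι, (P m).natDegree ≤ g
  zero : P 0 = 1
  /-- the truncated series satisfy the modular equation up to terms of order `L` -/
  approx : ∀ L : ℕ, ∀ m ≤ Fintype.card ι, ∃ V : ℂ[X], (∀ k, IsIntegral ℤ (V.coeff k)) ∧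
    ∀ s : ℂ, (∏ k, ξ k * s ^ (α k ^ 2)) *
        (∑ j ∈ Finset.range (g + 1), (P m).coeff j * tr c L (s ^ N) ^ j * (s ^ N) ^ (g - j)) -
      s ^ (N * g) * (∑ S ∈ Finset.powersetCard m (Finset.univ : Finset ι),
        (∏ k ∈ S, -tr c L (ξ k * s ^ (α k ^ 2))) * ∏ k ∈ Finset.univ \ S, (ξ k * s ^ (α k ^ 2))) =
      s ^ L * V.eval s

/-- **Package PAIR.** If `Ψ(x, x') = ∑ P_m(x) x'^(D - m) = 0` and `x` has a pole, then
`x'^d = ζ x^a (1 + ε)` with coprime `a, d ≥ 1`, a root of unity `ζ` and `|ε| ≤ max (1/|x|) (1/|x'|)`. -/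
def S_PAIR : Prop := ∀ (c : ℕ → ℂ) (N : ℕ) (ι : Type) [Fintype ι] [DecidableEq ι] (α δ : ι → ℕ)
    (ξ : ι → ℂ) (P : ℕ → ℂ[X]) (g : ℕ), Dat c N ι α δ ξ P g →
    ∀ (O : ValuationSubring ℂ) (x x' : ℂ), 1 < O.valuation x →
      (∃ a : ℕ, O.valuation x' ^ N = O.valuation x ^ (a ^ 2)) →
      ∑ m ∈ Finset.range (Fintype.card ι + 1), (P m).eval x * x' ^ (Fintype.card ι - m) = 0 →
      1 < O.valuation x' ∧ ∃ (a d : ℕ) (ζ : ℂ), 0 < a ∧ 0 < d ∧ a.Coprime d ∧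
        (∃ r : ℕ, 0 < r ∧ ζ ^ r = 1) ∧
        O.valuation (x' ^ d / (ζ * x ^ a) - 1) ≤ max (O.valuation x)⁻¹ (O.valuation x')⁻¹

end Pool.Agent.U854.CQ
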